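import Pool.Agent.H51.MF.Base

/-! # DIM: the dimension functional -/

set_option linter.style.haveILetI false
set_option linter.unusedSectionVars false
set_option autoImplicit false

namespace Pool.Agent.H51.MF

open Module Pool.Agent.H51.T2

universe u v

theorem s_DIM (K : Type v) [Field K] (A : Type u) [Ring A] [Algebra K A] : S_DIM K A := by
  intro hA c
  haveI := hA
  let P : FM K A := { C := A }
  haveI : Module.Projective A P := (inferInstance : Module.Projective A A)
  obtain ⟨a, ha⟩ := c.full P
  refine ⟨fun i => (a i : ℤ), fun X => ?_⟩
  have h1 : hd P X = finrank K X := by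
    unfold hd
    exact LinearEquiv.finrank_eq (LinearMap.ringLmapEquivSelf A K X)
  have h2 := ha X
  rw [h1] at h2
  rw [h2]
  simp only [dotProduct, Coo.v]
  push_cast
  rfl

end Pool.Agent.H51.MF
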