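import Pool.Agent.H51.MF.Base

/-! # ONE: in rank one there is one simple object -/

set_option linter.style.haveILetI false
set_option linter.unusedSectionVars false
set_option autoImplicit false

namespace Pool.Agent.H51.MF

open Module Pool.Agent.H51.T2

universe u v

/-- Two vectors of a set of rank at most one are proportional. -/
theorem ONE_prop {n : ℕ} (T : Set (Fin n → ℤ)) (hT : rk T ≤ 1) (x y : Fin n → ℤ)
    (hx : x ∈ T) (hy : y ∈ T) (hx0 : x ≠ 0) (hy0 : y ≠ 0) (η : Fin n → ℤ)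
    (h : η ⬝ᵥ x = 0) : η ⬝ᵥ y = 0 := by
  set S := Submodule.span ℚ ((fun (w : Fin n → ℤ) (i : Fin n) => (w i : ℚ)) '' T) with hS
  set x' : Fin n → ℚ := fun i => (x i : ℚ) with hx'
  set y' : Fin n → ℚ := fun i => (y i : ℚ) with hy'
  have hxS : x' ∈ S := Submodule.subset_span ⟨x, hx, rfl⟩
  have hyS : y' ∈ S := Submodule.subset_span ⟨y, hy, rfl⟩
  have hx'0 : x' ≠ 0 := by
    intro h0
    apply hx0
    funext i
    have := congrFun h0 i
    simpa [hx'] using this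
  have hfr : finrank ℚ S ≤ 1 := hT
  obtain ⟨v, hv⟩ := finrank_le_one_iff.1 hfr
  obtain ⟨a, ha⟩ := hv ⟨x', hxS⟩
  obtain ⟨b, hb⟩ := hv ⟨y', hyS⟩
  have ha' : a • (v : Fin n → ℚ) = x' := congrArg Subtype.val ha
  have hb' : b • (v : Fin n → ℚ) = y' := congrArg Subtype.val hb
  have ha0 : a ≠ 0 := by
    intro h0
    rw [h0, zero_smul] at ha'
    exact hx'0 ha'.symm
  set η' : Fin n → ℚ := fun i => (η i : ℚ) with hη'
  have hcx : η' ⬝ᵥ x' = 0 := by
    have : ((η ⬝ᵥ x : ℤ) : ℚ) = 0 := by rw [h]; simp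
    simpa [dotProduct, hη', hx'] using this
  have hcv : η' ⬝ᵥ (v : Fin n → ℚ) = 0 := by
    rw [← ha', dotProduct_smul, smul_eq_mul] at hcx
    exact (mul_eq_zero.1 hcx).resolve_left ha0
  have hcy : η' ⬝ᵥ y' = 0 := by
    rw [← hb', dotProduct_smul, hcv, smul_zero]
  have : ((η ⬝ᵥ y : ℤ) : ℚ) = 0 := by
    have := hcy
    simpa [dotProduct, hη', hy'] using this
  exact_mod_cast this

theorem s_ONE (K : Type v) [Field K] (A : Type u) [Ring A] [Algebra K A] (hLI : S_LI K A) :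
    S_ONE K A := by
  intro hK hA hR c f₁ hf hrk N N' hN hN'
  haveI := hA
  by_contra hne
  obtain ⟨η, hpos, hzero⟩ := hLI hK hA hR c f₁ N' hf hN'
  have h0 := hzero N hN hne
  have hn := hN.2.1
  have hn' := hN'.2.1
  have := ONE_prop (WV c f₁) hrk (c.v N) (c.v N') ⟨N, hN.1, rfl⟩ ⟨N', hN'.1, rfl⟩
    (v_ne_zero c N hn) (v_ne_zero c N' hn') η h0
  omega

end Pool.Agent.H51.MF
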