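import Pool.Agent.H7.MF.Stmts

/-!
Row NBE of the board mf18 (MP_fd41b2_co); copy of the row NDBY of gy11.
-/

set_option autoImplicit false

open Finset

namespace Pool.MF7

open Pool.Agent.H23.KT Pool.Agent.H46.KW Pool.KQ Pool.GT7 Pool.GU7 Pool.GV7

/-- The numerical part, `A = a ^ b`, `d = p + 2`, `c = c₁`. -/
theorem nbe_num (b d c w ε A N S0 S1 T κ lo hi t m : ℝ) (hb : 3 ≤ b) (hd : 1 ≤ d)
    (hc : 1 ≤ c) (hw : 0 ≤ w)
    (hA : 0 < A) (hε : ε = 1 / (16 * b ^ 3 * (c + w + 3)))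
    (h1 : (1 - ε) * A ≤ N) (h2 : N ≤ (1 + ε) * A) (h3 : S0 ≤ m * A + ε * A)
    (hm : m ≤ d * (1 - 3 / (4 * b))) (h6 : κ ≤ S1 + ε * A)
    (h7 : (w + 3) * S1 + 1 / (4 * b ^ 2) * lo ≤ c * N + (w + 2) * c * T)
    (h8 : d * hi ≤ S0) (h9 : hi + lo = N) (hT : T ≤ N) (ht0 : 0 ≤ t)
    (ht : t * (c * (w + 2) * (256 * b ^ 3)) ≤ 1) :
    (w + 3) * κ - (w + 2) * ((1 - t) * (c * T)) ≤ (c - 1 / (32 * b ^ 3)) * A := by
  have hb0 : 0 < b := by linarith
  have hb3 : 0 < b ^ 3 := by positivity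
  have hs0 : 0 < c + w + 3 := by linarith
  have hε0 : 0 < ε := by rw [hε]; positivity
  have hε1 : ε * (c + w + 3) = 1 / (16 * b ^ 3) := by rw [hε]; field_simp
  have hε2 : 2 * ε ≤ 1 / (4 * b) := by
    rw [hε, ← mul_one_div, ← sub_nonneg]
    have e1 : 1 / (4 * b) - 2 * (1 * (1 / (16 * b ^ 3 * (c + w + 3)))) =
        (2 * b ^ 2 * (c + w + 3) - 1) / (8 * b ^ 3 * (c + w + 3)) := by
      field_simp
      ring
    rw [e1]
    apply div_nonneg _ (by positivity)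
    have : (9 : ℝ) ≤ b ^ 2 := by nlinarith
    nlinarith
  have q0 : m * A ≤ d * (1 - 3 / (4 * b)) * A := mul_le_mul_of_nonneg_right hm hA.le
  have q0' : ε * A ≤ d * (ε * A) := by
    have : 0 < ε * A := by positivity
    nlinarith
  have q1 : d * hi ≤ d * ((1 - 3 / (4 * b) + ε) * A) := by
    have : d * ((1 - 3 / (4 * b) + ε) * A) = d * (1 - 3 / (4 * b)) * A + d * (ε * A) := by ring
    linarith
  have q2 : hi ≤ (1 - 3 / (4 * b) + ε) * A := le_of_mul_le_mul_left q1 (by linarith)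
  have q3 : A / (2 * b) ≤ lo := by
    have r1 : 2 * ε * A ≤ 1 / (4 * b) * A := mul_le_mul_of_nonneg_right hε2 hA.le
    have r2 : (1 - 3 / (4 * b) + ε) * A = A - 3 * (1 / (4 * b) * A) + ε * A := by
      field_simp
    have r3 : A / (2 * b) = 2 * (1 / (4 * b) * A) := by
      field_simp
      norm_num
    rw [r3]
    rw [r2] at q2
    nlinarith
  have q4 : A / (8 * b ^ 3) ≤ 1 / (4 * b ^ 2) * lo := by
    have r1 : 1 / (4 * b ^ 2) * (A / (2 * b)) ≤ 1 / (4 * b ^ 2) * lo :=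
      mul_le_mul_of_nonneg_left q3 (by positivity)
    have r2 : 1 / (4 * b ^ 2) * (A / (2 * b)) = A / (8 * b ^ 3) := by
      field_simp
      norm_num
    linarith
  have q5 : c * N ≤ c * ((1 + ε) * A) := mul_le_mul_of_nonneg_left h2 (by linarith)
  have q5' : T ≤ 2 * A := by
    have : ε ≤ 1 := by
      have : 1 / (4 * b) ≤ 1 := by rw [div_le_one (by positivity)]; linarith
      linarith
    have : ε * A ≤ 1 * A := mul_le_mul_of_nonneg_right this hA.le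
    linarith
  have q6 : (w + 2) * (t * (c * T)) ≤ A / (128 * b ^ 3) := by
    have r1 : (w + 2) * (t * (c * T)) ≤ (w + 2) * (t * (c * (2 * A))) :=
      mul_le_mul_of_nonneg_left (mul_le_mul_of_nonneg_left
        (mul_le_mul_of_nonneg_left q5' (by linarith)) ht0) (by linarith)
    have r2 : t * c * (w + 2) ≤ 1 / (256 * b ^ 3) := by
      rw [le_div_iff₀ (by positivity)]
      calc t * c * (w + 2) * (256 * b ^ 3) = t * (c * (w + 2) * (256 * b ^ 3)) := by ring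
        _ ≤ 1 := ht
    have r3 : t * c * (w + 2) * (2 * A) ≤ 1 / (256 * b ^ 3) * (2 * A) :=
      mul_le_mul_of_nonneg_right r2 (by linarith)
    have r4 : 1 / (256 * b ^ 3) * (2 * A) = A / (128 * b ^ 3) := by field_simp; norm_num
    have r5 : (w + 2) * (t * (c * (2 * A))) = t * c * (w + 2) * (2 * A) := by ring
    linarith
  have q7 : ε * (c + w + 3) * A = A / (16 * b ^ 3) := by rw [hε1]; ring
  have q8 : (w + 3) * κ ≤ (w + 3) * (S1 + ε * A) := mul_le_mul_of_nonneg_left h6 (by linarith)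
  have q9 : (c - 1 / (32 * b ^ 3)) * A = c * A - A / b ^ 3 / 32 := by field_simp
  have u1 : A / (8 * b ^ 3) = A / b ^ 3 / 8 := by field_simp
  have u2 : A / (128 * b ^ 3) = A / b ^ 3 / 128 := by field_simp
  have u3 : A / (16 * b ^ 3) = A / b ^ 3 / 16 := by field_simp
  have u4 : 0 < A / b ^ 3 := by positivity
  rw [q9]
  rw [u1] at q4
  rw [u2] at q6
  rw [u3] at q7
  have u5 : (w + 3) * κ - (w + 2) * ((1 - t) * (c * T)) =
      (w + 3) * κ - (w + 2) * c * T + (w + 2) * (t * (c * T)) := by ring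
  rw [u5]
  nlinarith

theorem NBE_thm (hU : NUEStmt) (hG : GCEStmt) (hP : PRFStmt) (hC : CCK0Stmt) (hO : GCO0Stmt) :
    NBEStmt := by
  intro p w r h
  obtain ⟨h0, g4⟩ := hG p w r h
  have hp0 : (0 : ℝ) ≤ p := Nat.cast_nonneg p
  have hw0 : (0 : ℝ) ≤ w := Nat.cast_nonneg w
  have he : 0 < e1 p := by unfold e1; positivity
  have hwp : w ≤ p := h.wp
  have hc1 : (1 : ℝ) ≤ ((p + 2).choose (w + 1) : ℝ) := by
    have : 0 < (p + 2).choose (w + 1) := Nat.choose_pos (by omega)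
    exact_mod_cast this
  set c : ℝ := ((p + 2).choose (w + 1) : ℝ) with hcdef
  set ε : ℝ := 1 / (16 * ((p : ℝ) + 3) ^ 3 * (c + w + 3)) with hε
  have hε0 : 0 < ε := by positivity
  obtain ⟨e₀, he₀, hP1⟩ := hP p ε hε0
  refine ⟨min e₀ (e1 p / 2), lt_min he₀ (by positivity), fun C => ?_⟩
  obtain ⟨a₀, hP2⟩ := hP1 C
  refine ⟨max a₀ 1, fun a ha V _ G e W P U hStr he0 hee hCB z hz hn hnd => ?_⟩
  have ha0 : a₀ ≤ a := le_trans (le_max_left _ _) ha
  have ha1 : 1 ≤ a := le_trans (le_max_right _ _) ha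
  have haR : (0 : ℝ) < a := by exact_mod_cast ha1
  obtain ⟨p1, p2, -, p4, -, p6, -⟩ :=
    hP2 a ha0 G e W P U hStr he0 (hee.trans (min_le_left _ _)) hCB z hz
  obtain ⟨c1, -, -, -⟩ :=
    hC G p w r a e C W P U h0 hStr he0 (hee.trans (min_le_right _ _)) hCB z hz
  obtain ⟨o1, o2, -⟩ := hO p w r h0
  set X := un P with hX
  have hA : (0 : ℝ) < (a : ℝ) ^ (p + 3) := by positivity
  have hN : (kc G X (p + 3) : ℝ) = ∑ L ∈ clq G X (p + 3), (1 : ℝ) := by
    rw [sum_const, nsmul_eq_mul, mul_one]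
    rfl
  have hT : TZ G p r X z ≤ (kc G X (p + 3) : ℝ) := by
    unfold TZ
    rw [hN]
    exact sum_le_sum fun L hL => (o1 _ (c1 L hL)).2.1
  set lo : ℝ := ∑ L ∈ clq G X (p + 3), (if (nb G L z).card ≤ p + 1 then (1 : ℝ) else 0) with hlo
  set hi : ℝ := ∑ L ∈ clq G X (p + 3), (if (nb G L z).card ≤ p + 1 then (0 : ℝ) else 1) with hhi
  have h9 : hi + lo = (kc G X (p + 3) : ℝ) := by
    rw [hlo, hhi, hN, ← sum_add_distrib]
    refine sum_congr rfl fun L _ => ?_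
    split_ifs <;> norm_num
  have h8 : ((p : ℝ) + 2) * hi ≤ ∑ L ∈ clq G X (p + 3), ((nb G L z).card : ℝ) := by
    rw [hhi, mul_sum]
    refine sum_le_sum fun L hL => ?_
    split_ifs with hB
    · rw [mul_zero]; exact Nat.cast_nonneg _
    · rw [mul_one]
      have : p + 2 ≤ (nb G L z).card := by omega
      exact_mod_cast this
  have h7 : ((w : ℝ) + 3) * (∑ L ∈ clq G X (p + 3), ((nb G L z).card.choose (w + 1) : ℝ)) +
      1 / (4 * ((p : ℝ) + 3) ^ 2) * lo ≤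
      c * (kc G X (p + 3) : ℝ) + ((w : ℝ) + 2) * c * TZ G p r X z := by
    unfold TZ
    rw [hlo, hN, mul_sum, mul_sum, mul_sum, mul_sum, ← sum_add_distrib, ← sum_add_distrib]
    refine sum_le_sum fun L hL => ?_
    have hB2 := c1 L hL
    split_ifs with hB
    · have := g4 _ hB
      linarith
    · have hB3 : (nb G L z).card = p + 2 := by omega
      rw [hB3, o2, ← hcdef]
      linarith
  have t1 : 0 ≤ et p w := by unfold et; positivity
  have t0 : et p w * (c * ((w : ℝ) + 2) * (256 * ((p : ℝ) + 3) ^ 3)) ≤ 1 := by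
    have e5 : et p w * (c * ((w : ℝ) + 2) * (256 * ((p : ℝ) + 3) ^ 3)) = e1 p := by
      unfold et
      rw [← hcdef]
      have hc0 : c ≠ 0 := by linarith
      field_simp
    rw [e5]
    unfold e1
    rw [div_le_one (by positivity)]
    have : (1 : ℝ) ≤ ((p : ℝ) + 3) ^ 3 := one_le_pow₀ (by linarith)
    linarith
  have pw1 : (a : ℝ) ^ (p + 3) = (a : ℝ) ^ (p + 2) * a := by rw [← pow_succ]
  have h3 : ∑ L ∈ clq G X (p + 3), ((nb G L z).card : ℝ) ≤
      mE p w r * (a : ℝ) ^ (p + 3) + ε * (a : ℝ) ^ (p + 3) := by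
    refine p4.trans ?_
    have : ((nb G X z).card : ℝ) * (a : ℝ) ^ (p + 2) ≤ mE p w r * a * (a : ℝ) ^ (p + 2) :=
      mul_le_mul_of_nonneg_right hn (by positivity)
    rw [pw1]
    linarith
  have hm : mE p w r ≤ ((p : ℝ) + 2) * (1 - 3 / (4 * ((p : ℝ) + 3))) := by
    obtain ⟨n1, -⟩ := hU p w r h
    unfold mE thE
    refine mul_le_mul_of_nonneg_left ?_ (by linarith)
    have hwp2 : (w : ℝ) ≤ p := by exact_mod_cast hwp
    have e1 : 1 / ((p : ℝ) + 3) ≤ 1 / ((w : ℝ) + 2) :=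
      one_div_le_one_div_of_le (by positivity) (by linarith)
    have e2 : 3 / (4 * ((p : ℝ) + 3)) = 3 / 4 * (1 / ((p : ℝ) + 3)) := by
      field_simp
    have e3 : 0 < 1 / ((p : ℝ) + 3) := by positivity
    rw [e2]
    linarith
  have h6 := p6 (w + 1) (by omega)
  have e7 : p + 3 - (w + 1) = p + 2 - w := by omega
  rw [e7] at h6
  have key := nbe_num ((p : ℝ) + 3) ((p : ℝ) + 2) c w ε ((a : ℝ) ^ (p + 3)) (kc G X (p + 3)) _ _
    (TZ G p r X z) ((kc G (nb G X z) (w + 1) : ℝ) * (a : ℝ) ^ (p + 2 - w)) lo hi (et p w) (mE p w r)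
    (by linarith) (by linarith) hc1 hw0 hA hε p1 p2 h3 hm h6 h7 h8 h9 hT t1 t0
  have hd : (0 : ℝ) < (a : ℝ) ^ (p + 2 - w) := by positivity
  have pw2 : (a : ℝ) ^ (p + 3) = (a : ℝ) ^ (w + 1) * (a : ℝ) ^ (p + 2 - w) := by
    rw [← pow_add]
    congr 1
    omega
  have hndE : nd G p w r a X z * (a : ℝ) ^ (p + 2 - w) =
      (kc G (nb G X z) (w + 1) : ℝ) * (a : ℝ) ^ (p + 2 - w) -
        (1 - et p w) * (c * TZ G p r X z) := by
    unfold nd at hnd ⊢
    rw [max_eq_right (le_of_lt ((lt_max_iff.1 hnd).resolve_left (lt_irrefl 0)))]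
    rw [← hcdef, pw2]
    have z1 : (a : ℝ) ^ (w + 1) ≠ 0 := by positivity
    have z2 : (a : ℝ) ^ (p + 2 - w) ≠ 0 := by positivity
    field_simp
  refine le_of_mul_le_mul_right ?_ hd
  have e8 : (((w : ℝ) + 2) * nd G p w r a X z + (kc G (nb G X z) (w + 1) : ℝ)) *
      (a : ℝ) ^ (p + 2 - w) =
      ((w : ℝ) + 3) * ((kc G (nb G X z) (w + 1) : ℝ) * (a : ℝ) ^ (p + 2 - w)) -
        ((w : ℝ) + 2) * ((1 - et p w) * (c * TZ G p r X z)) := by
    rw [add_mul, mul_assoc, hndE]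
    ring
  rw [e8]
  refine key.trans (le_of_eq ?_)
  rw [pw2]
  ring

end Pool.MF7
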